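import Pool.Agent.Y924.EL.Stm2

/-! # Bounded evaluation of a fixed program is an elementary function (project EL) -/

set_option autoImplicit false

namespace Pool.Agent.Y154.EL

open Pool.Agent.Y924.EL
open Nat.Partrec (Code)

/-! ### a toolbox -/

theorem e_id : E3 fun n => n := by
  have h := E3.pair E3.left E3.right
  simpa only [Nat.pair_unpair] using h

theorem e_const (c : ℕ) : E3 fun _ => c := by
  induction c with
  | zero => exact E3.zero
  | succ c ih => exact E3.comp (f := fun n => n + 1) (g := fun _ => c) E3.succ ih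

theorem e_succ {f : ℕ → ℕ} (hf : E3 f) : E3 fun w => f w + 1 :=
  E3.comp (f := fun n => n + 1) E3.succ hf

theorem e_left {f : ℕ → ℕ} (hf : E3 f) : E3 fun w => (f w).unpair.1 :=
  E3.comp (f := fun n => n.unpair.1) E3.left hf

theorem e_right {f : ℕ → ℕ} (hf : E3 f) : E3 fun w => (f w).unpair.2 :=
  E3.comp (f := fun n => n.unpair.2) E3.right hf

theorem recF_zero (f g : ℕ → ℕ) (z : ℕ) : recF f g (Nat.pair z 0) = f z := by
  unfold recF
  rw [Nat.unpair_pair]
  rfl

theorem recF_succ (f g : ℕ → ℕ) (z n : ℕ) : recF f g (Nat.pair z (n + 1)) =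
    g (Nat.pair z (Nat.pair n (recF f g (Nat.pair z n)))) := by
  unfold recF
  rw [Nat.unpair_pair, Nat.unpair_pair]

theorem e_rec {f g b : ℕ → ℕ} (hf : E3 f) (hg : E3 g) (hb : E3 b)
    (h : ∀ z n, recF f g (Nat.pair z n) ≤ b (Nat.pair z n)) : E3 (recF f g) := by
  refine E3.limrec hf hg hb fun w => ?_
  have h1 := h w.unpair.1 w.unpair.2
  rwa [Nat.pair_unpair] at h1

theorem e_ite {f g h : ℕ → ℕ} (hf : E3 f) (hg : E3 g) (hh : E3 h) :
    E3 fun w => if f w = 0 then g w else h w := by
  have h1 : E3 (recF (fun z => z.unpair.1) fun u => u.unpair.1.unpair.2) := by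
    refine e_rec E3.left (e_right E3.left) e_id fun z n => ?_
    cases n with
    | zero =>
      rw [recF_zero]
      exact (Nat.unpair_left_le z).trans (Nat.left_le_pair z 0)
    | succ n =>
      rw [recF_succ, Nat.unpair_pair]
      exact (Nat.unpair_right_le z).trans (Nat.left_le_pair z _)
  have h2 := E3.comp (g := fun w => Nat.pair (Nat.pair (g w) (h w)) (f w)) h1
    (E3.pair (E3.pair hg hh) hf)
  have h3 : (fun w => recF (fun z => z.unpair.1) (fun u => u.unpair.1.unpair.2)
      (Nat.pair (Nat.pair (g w) (h w)) (f w))) = fun w => if f w = 0 then g w else h w := by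
    funext w
    cases h4 : f w with
    | zero => rw [recF_zero, Nat.unpair_pair, if_pos rfl]
    | succ n => rw [recF_succ, Nat.unpair_pair, Nat.unpair_pair, if_neg (Nat.succ_ne_zero n)]
  rwa [h3] at h2

theorem e_pred {f : ℕ → ℕ} (hf : E3 f) : E3 fun w => f w - 1 := by
  have h1 : E3 (recF (fun _ => 0) fun u => u.unpair.2.unpair.1) := by
    refine e_rec E3.zero (e_left E3.right) e_id fun z n => ?_
    cases n with
    | zero =>
      rw [recF_zero]
      exact Nat.zero_le _
    | succ n =>
      rw [recF_succ, Nat.unpair_pair, Nat.unpair_pair]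
      exact (Nat.le_succ n).trans (Nat.right_le_pair z _)
  have h2 := E3.comp (g := fun w => Nat.pair 0 (f w)) h1 (E3.pair E3.zero hf)
  have h3 : (fun w => recF (fun _ => 0) (fun u => u.unpair.2.unpair.1) (Nat.pair 0 (f w))) =
      fun w => f w - 1 := by
    funext w
    cases h4 : f w with
    | zero => rw [recF_zero]
    | succ n =>
      rw [recF_succ, Nat.unpair_pair, Nat.unpair_pair]
      rfl
  rwa [h3] at h2

theorem e_sub {f g : ℕ → ℕ} (hf : E3 f) (hg : E3 g) : E3 fun w => f w - g w := by
  have h0 : ∀ z n, recF (fun z => z) (fun u => u.unpair.2.unpair.2 - 1) (Nat.pair z n) =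
      z - n := by
    intro z n
    induction n with
    | zero =>
      rw [recF_zero]
      rfl
    | succ n ih =>
      rw [recF_succ, Nat.unpair_pair, Nat.unpair_pair, ih]
      show z - n - 1 = z - (n + 1)
      omega
  have h1 : E3 (recF (fun z => z) fun u => u.unpair.2.unpair.2 - 1) := by
    refine e_rec e_id (e_pred (e_right E3.right)) e_id fun z n => ?_
    rw [h0]
    exact (Nat.sub_le z n).trans (Nat.left_le_pair z n)
  have h2 := E3.comp (g := fun w => Nat.pair (f w) (g w)) h1 (E3.pair hf hg)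
  have h3 : (fun w => recF (fun z => z) (fun u => u.unpair.2.unpair.2 - 1)
      (Nat.pair (f w) (g w))) = fun w => f w - g w := by
    funext w
    exact h0 _ _
  rwa [h3] at h2

theorem e_add {f g : ℕ → ℕ} (hf : E3 f) (hg : E3 g) : E3 fun w => f w + g w := by
  have h0 : ∀ z n, recF (fun z => z) (fun u => u.unpair.2.unpair.2 + 1) (Nat.pair z n) =
      z + n := by
    intro z n
    induction n with
    | zero =>
      rw [recF_zero]
      rfl
    | succ n ih =>
      rw [recF_succ, Nat.unpair_pair, Nat.unpair_pair, ih]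
      show z + n + 1 = z + (n + 1)
      omega
  have h1 : E3 (recF (fun z => z) fun u => u.unpair.2.unpair.2 + 1) := by
    refine e_rec e_id (e_succ (e_right E3.right)) e_id fun z n => ?_
    rw [h0]
    exact Nat.add_le_pair z n
  have h2 := E3.comp (g := fun w => Nat.pair (f w) (g w)) h1 (E3.pair hf hg)
  have h3 : (fun w => recF (fun z => z) (fun u => u.unpair.2.unpair.2 + 1)
      (Nat.pair (f w) (g w))) = fun w => f w + g w := by
    funext w
    exact h0 _ _
  rwa [h3] at h2

theorem e_lt {a b g h : ℕ → ℕ} (ha : E3 a) (hb : E3 b) (hg : E3 g) (hh : E3 h) :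
    E3 fun w => if a w < b w then g w else h w := by
  have h1 := e_ite (e_sub (e_succ ha) hb) hg hh
  have h2 : (fun w => if a w + 1 - b w = 0 then g w else h w) =
      fun w => if a w < b w then g w else h w := by
    funext w
    by_cases h : a w < b w
    · rw [if_pos h, if_pos (by omega)]
    · rw [if_neg h, if_neg (by omega)]
  rwa [h2] at h1

theorem e_tower (J : ℕ) : E3 fun x => tower J x := by
  induction J with
  | zero => exact e_id
  | succ J ih => exact E3.comp (f := fun n => 2 ^ n) E3.pow ih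

theorem tower_mono (J : ℕ) {x y : ℕ} (h : x ≤ y) : tower J x ≤ tower J y := by
  induction J with
  | zero => exact h
  | succ J ih => exact Nat.pow_le_pow_right (by norm_num) ih

theorem tower_step (J x : ℕ) : tower J x ≤ tower (J + 1) x :=
  Nat.lt_two_pow_self.le

theorem tower_le {I J : ℕ} (h : I ≤ J) (x : ℕ) : tower I x ≤ tower J x := by
  induction h with
  | refl => exact le_rfl
  | step _ ih => exact ih.trans (tower_step _ x)

theorem le_tower (J x : ℕ) : x ≤ tower J x := tower_le (Nat.zero_le J) x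

theorem pair_bound (t x y : ℕ) (hx : x ≤ t) (hy : y ≤ t) : Nat.pair x y ≤ 2 ^ 2 ^ t := by
  have h1 := Nat.pair_lt_max_add_one_sq x y
  have h2 : max x y + 1 ≤ t + 1 := Nat.add_le_add_right (max_le hx hy) 1
  have h3 : t + 1 ≤ 2 ^ t := Nat.lt_two_pow_self
  have h4 : (max x y + 1) ^ 2 ≤ (2 ^ t) ^ 2 := Nat.pow_le_pow_left (h2.trans h3) 2
  have h5 : (2 ^ t) ^ 2 ≤ 2 ^ 2 ^ t := by
    rw [← pow_mul]
    refine Nat.pow_le_pow_right (by norm_num) ?_
    clear h1 h2 h3 h4 hx hy
    induction t with
    | zero => norm_num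
    | succ t ih =>
      rcases Nat.eq_zero_or_pos t with h | h
      · rw [h]
        norm_num
      · rw [pow_succ]
        omega
  omega

/-! ### the equations of the bounded evaluation -/

/-- the value of an option -/
def val : Option ℕ → ℕ
  | none => 0
  | some y => y + 1

theorem evn_eq (c : Code) (w : ℕ) : evn c w = val (Code.evaln w.unpair.1 c w.unpair.2) := by
  unfold evn
  cases Code.evaln w.unpair.1 c w.unpair.2 <;> rfl

theorem evn_pr (c : Code) (k n : ℕ) : evn c (Nat.pair k n) = val (Code.evaln k c n) := by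
  rw [evn_eq, Nat.unpair_pair]

theorem val_guard (k n : ℕ) (o : Option ℕ) :
    val (do guard (n ≤ k); o) = if n < k + 1 then val o else 0 := by
  by_cases h : n ≤ k
  · rw [if_pos (Nat.lt_succ_of_le h)]
    simp [guard, h]
  · rw [if_neg (fun h1 => h (Nat.le_of_lt_succ h1))]
    simp [guard, h, val]

theorem val_bind (o : Option ℕ) (f : ℕ → Option ℕ) :
    val (o >>= f) = if val o = 0 then 0 else val (f (val o - 1)) := by
  cases o <;> simp [val]

theorem val_seq (o p : Option ℕ) : val (Nat.pair <$> o <*> p) =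
    if val o = 0 then 0 else if val p = 0 then 0 else Nat.pair (val o - 1) (val p - 1) + 1 := by
  cases o <;> cases p <;> simp [val, Seq.seq]

theorem evn_0 (c : Code) (n : ℕ) : evn c (Nat.pair 0 n) = 0 := by
  rw [evn_pr, Code.evaln]
  rfl

theorem evn_zero (k n : ℕ) : evn Code.zero (Nat.pair k n) = if n < k then 1 else 0 := by
  cases k with
  | zero => rw [evn_0, if_neg (Nat.not_lt_zero n)]
  | succ k =>
    rw [evn_pr, Code.evaln, val_guard]
    rfl

theorem evn_succ (k n : ℕ) : evn Code.succ (Nat.pair k n) = if n < k then n + 2 else 0 := by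
  cases k with
  | zero => rw [evn_0, if_neg (Nat.not_lt_zero n)]
  | succ k =>
    rw [evn_pr, Code.evaln, val_guard]
    rfl

theorem evn_left (k n : ℕ) :
    evn Code.left (Nat.pair k n) = if n < k then n.unpair.1 + 1 else 0 := by
  cases k with
  | zero => rw [evn_0, if_neg (Nat.not_lt_zero n)]
  | succ k =>
    rw [evn_pr, Code.evaln, val_guard]
    rfl

theorem evn_right (k n : ℕ) :
    evn Code.right (Nat.pair k n) = if n < k then n.unpair.2 + 1 else 0 := by
  cases k with
  | zero => rw [evn_0, if_neg (Nat.not_lt_zero n)]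
  | succ k =>
    rw [evn_pr, Code.evaln, val_guard]
    rfl

theorem evn_pair (cf cg : Code) (k n : ℕ) : evn (Code.pair cf cg) (Nat.pair k n) =
    if n < k then (if evn cf (Nat.pair k n) = 0 then 0 else if evn cg (Nat.pair k n) = 0 then 0
      else Nat.pair (evn cf (Nat.pair k n) - 1) (evn cg (Nat.pair k n) - 1) + 1) else 0 := by
  cases k with
  | zero => rw [evn_0, if_neg (Nat.not_lt_zero n)]
  | succ k =>
    rw [evn_pr, evn_pr, evn_pr, Code.evaln, val_guard, val_seq]

theorem evn_comp (cf cg : Code) (k n : ℕ) : evn (Code.comp cf cg) (Nat.pair k n) =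
    if n < k then (if evn cg (Nat.pair k n) = 0 then 0 else
      evn cf (Nat.pair k (evn cg (Nat.pair k n) - 1))) else 0 := by
  cases k with
  | zero => rw [evn_0, if_neg (Nat.not_lt_zero n)]
  | succ k =>
    rw [evn_pr, evn_pr, evn_pr, Code.evaln, val_guard, val_bind]

theorem evn_prec0 (cf cg : Code) (k a : ℕ) :
    evn (Code.prec cf cg) (Nat.pair k (Nat.pair a 0)) =
      if Nat.pair a 0 < k then evn cf (Nat.pair k a) else 0 := by
  cases k with
  | zero => rw [evn_0, if_neg (Nat.not_lt_zero _)]
  | succ k =>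
    rw [evn_pr, evn_pr, Code.evaln, val_guard, Nat.unpaired, Nat.unpair_pair]
    rfl

theorem evn_prec1 (cf cg : Code) (k a j : ℕ) :
    evn (Code.prec cf cg) (Nat.pair (k + 1) (Nat.pair a (j + 1))) =
      if Nat.pair a (j + 1) < k + 1 then
        (if evn (Code.prec cf cg) (Nat.pair k (Nat.pair a j)) = 0 then 0 else
          evn cg (Nat.pair (k + 1) (Nat.pair a (Nat.pair j
            (evn (Code.prec cf cg) (Nat.pair k (Nat.pair a j)) - 1))))) else 0 := by
  rw [evn_pr, evn_pr, evn_pr, Code.evaln, val_guard, Nat.unpaired, Nat.unpair_pair]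
  show (if _ then val (Code.evaln k (Code.prec cf cg) (Nat.pair a j) >>= fun i =>
    Code.evaln (k + 1) cg (Nat.pair a (Nat.pair j i))) else 0) = _
  rw [val_bind]

theorem evn_rfind (cf : Code) (k a m : ℕ) :
    evn (Code.rfind' cf) (Nat.pair (k + 1) (Nat.pair a m)) =
      if Nat.pair a m < k + 1 then
        (if evn cf (Nat.pair (k + 1) (Nat.pair a m)) = 0 then 0 else
          if evn cf (Nat.pair (k + 1) (Nat.pair a m)) - 1 = 0 then m + 1 else
            evn (Code.rfind' cf) (Nat.pair k (Nat.pair a (m + 1)))) else 0 := by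
  rw [evn_pr, evn_pr, evn_pr, Code.evaln, val_guard, Nat.unpaired, Nat.unpair_pair]
  show (if _ then val (Code.evaln (k + 1) cf (Nat.pair a m) >>= fun x =>
    if x = 0 then pure m else Code.evaln k (Code.rfind' cf) (Nat.pair a (m + 1))) else 0) = _
  rw [val_bind]
  congr 1
  congr 1
  split_ifs <;> rfl

/-! ### the theorem -/

/-- the induction hypothesis -/
def Gd (c : Code) : Prop :=
  E3 (evn c) ∧ ∃ J : ℕ, ∀ k n : ℕ, evn c (Nat.pair k n) ≤ tower J k + 1

/-- a function given on pairs -/
theorem e_ofPair {F G : ℕ → ℕ} (hG : E3 G)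
    (h : ∀ k n : ℕ, F (Nat.pair k n) = G (Nat.pair k n)) : E3 F := by
  have h1 : F = G := by
    funext w
    have h2 := h w.unpair.1 w.unpair.2
    rwa [Nat.pair_unpair] at h2
  rw [h1]
  exact hG

theorem gd_zero : Gd Code.zero := by
  refine ⟨e_ofPair (G := fun w => if w.unpair.2 < w.unpair.1 then 1 else 0)
    (e_lt E3.right E3.left (e_const 1) (e_const 0)) fun k n => ?_, 0, fun k n => ?_⟩
  · rw [evn_zero, Nat.unpair_pair]
  · rw [evn_zero]
    split_ifs <;> omega

theorem gd_succ : Gd Code.succ := by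
  refine ⟨e_ofPair (G := fun w => if w.unpair.2 < w.unpair.1 then w.unpair.2 + 2 else 0)
    (e_lt E3.right E3.left (e_succ (e_succ E3.right)) (e_const 0)) fun k n => ?_, 0,
    fun k n => ?_⟩
  · rw [evn_succ, Nat.unpair_pair]
  · rw [evn_succ]
    show _ ≤ k + 1
    split_ifs <;> omega

theorem gd_left : Gd Code.left := by
  refine ⟨e_ofPair (G := fun w => if w.unpair.2 < w.unpair.1 then w.unpair.2.unpair.1 + 1 else 0)
    (e_lt E3.right E3.left (e_succ (e_left E3.right)) (e_const 0)) fun k n => ?_, 0,
    fun k n => ?_⟩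
  · rw [evn_left, Nat.unpair_pair]
  · rw [evn_left]
    have h1 := Nat.unpair_left_le n
    show _ ≤ k + 1
    split_ifs <;> omega

theorem gd_right : Gd Code.right := by
  refine ⟨e_ofPair (G := fun w => if w.unpair.2 < w.unpair.1 then w.unpair.2.unpair.2 + 1 else 0)
    (e_lt E3.right E3.left (e_succ (e_right E3.right)) (e_const 0)) fun k n => ?_, 0,
    fun k n => ?_⟩
  · rw [evn_right, Nat.unpair_pair]
  · rw [evn_right]
    have h1 := Nat.unpair_right_le n
    show _ ≤ k + 1
    split_ifs <;> omega

theorem gd_pair {cf cg : Code} (hf : Gd cf) (hg : Gd cg) : Gd (Code.pair cf cg) := by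
  obtain ⟨ef, Jf, bf⟩ := hf
  obtain ⟨eg, Jg, bg⟩ := hg
  refine ⟨e_ofPair (G := fun w => if w.unpair.2 < w.unpair.1 then
      (if evn cf w = 0 then 0 else if evn cg w = 0 then 0 else
        Nat.pair (evn cf w - 1) (evn cg w - 1) + 1) else 0)
    (e_lt E3.right E3.left (e_ite ef E3.zero (e_ite eg E3.zero
      (e_succ (E3.pair (e_pred ef) (e_pred eg))))) E3.zero) fun k n => ?_,
    max Jf Jg + 2, fun k n => ?_⟩
  · rw [evn_pair, Nat.unpair_pair]
  · rw [evn_pair]
    have h1 := (bf k n).trans (Nat.add_le_add_right (tower_le (le_max_left Jf Jg) k) 1)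
    have h2 := (bg k n).trans (Nat.add_le_add_right (tower_le (le_max_right Jf Jg) k) 1)
    have h3 := pair_bound (tower (max Jf Jg) k) (evn cf (Nat.pair k n) - 1)
      (evn cg (Nat.pair k n) - 1) (by omega) (by omega)
    split_ifs
    · exact Nat.zero_le _
    · exact Nat.zero_le _
    · exact Nat.add_le_add_right h3 1
    · exact Nat.zero_le _

theorem gd_comp {cf cg : Code} (hf : Gd cf) (hg : Gd cg) : Gd (Code.comp cf cg) := by
  obtain ⟨ef, Jf, bf⟩ := hf
  obtain ⟨eg, Jg, bg⟩ := hg
  refine ⟨e_ofPair (G := fun w => if w.unpair.2 < w.unpair.1 then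
      (if evn cg w = 0 then 0 else evn cf (Nat.pair w.unpair.1 (evn cg w - 1))) else 0)
    (e_lt E3.right E3.left (e_ite eg E3.zero
      (E3.comp (g := fun w => Nat.pair w.unpair.1 (evn cg w - 1)) ef
        (E3.pair E3.left (e_pred eg)))) E3.zero) fun k n => ?_,
    Jf, fun k n => ?_⟩
  · rw [evn_comp, Nat.unpair_pair]
  · rw [evn_comp]
    split_ifs
    · exact Nat.zero_le _
    · exact bf _ _
    · exact Nat.zero_le _

theorem gd_prec {cf cg : Code} (hf : Gd cf) (hg : Gd cg) : Gd (Code.prec cf cg) := by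
  obtain ⟨ef, Jf, bf⟩ := hf
  obtain ⟨eg, Jg, bg⟩ := hg
  have hb : ∀ k a n : ℕ, evn (Code.prec cf cg) (Nat.pair k (Nat.pair a n)) ≤
      tower (max Jf Jg) k + 1 := by
    intro k a n
    cases n with
    | zero =>
      rw [evn_prec0]
      split_ifs
      · exact (bf k a).trans (Nat.add_le_add_right (tower_le (le_max_left Jf Jg) k) 1)
      · exact Nat.zero_le _
    | succ n =>
      cases k with
      | zero =>
        rw [evn_0]
        exact Nat.zero_le _
      | succ k =>
        rw [evn_prec1]
        split_ifs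
        · exact Nat.zero_le _
        · exact (bg (k + 1) _).trans
            (Nat.add_le_add_right (tower_le (le_max_right Jf Jg) (k + 1)) 1)
        · exact Nat.zero_le _
  have h0 : ∀ z j : ℕ, recF (fun z => if Nat.pair z.unpair.2 0 < z.unpair.1 then evn cf z else 0)
      (fun u => if Nat.pair u.unpair.1.unpair.2 (u.unpair.2.unpair.1 + 1) <
          u.unpair.1.unpair.1 + u.unpair.2.unpair.1 + 1 then
        (if u.unpair.2.unpair.2 = 0 then 0 else
          evn cg (Nat.pair (u.unpair.1.unpair.1 + u.unpair.2.unpair.1 + 1)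
            (Nat.pair u.unpair.1.unpair.2 (Nat.pair u.unpair.2.unpair.1
              (u.unpair.2.unpair.2 - 1))))) else 0) (Nat.pair z j) =
      evn (Code.prec cf cg) (Nat.pair (z.unpair.1 + j) (Nat.pair z.unpair.2 j)) := by
    intro z j
    induction j with
    | zero =>
      rw [recF_zero, Nat.add_zero, evn_prec0, Nat.pair_unpair]
    | succ j ih =>
      rw [recF_succ, Nat.unpair_pair, Nat.unpair_pair, ih, ← Nat.add_assoc, evn_prec1]
  have h1 := e_rec (f := fun z => if Nat.pair z.unpair.2 0 < z.unpair.1 then evn cf z else 0)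
    (g := fun u => if Nat.pair u.unpair.1.unpair.2 (u.unpair.2.unpair.1 + 1) <
          u.unpair.1.unpair.1 + u.unpair.2.unpair.1 + 1 then
        (if u.unpair.2.unpair.2 = 0 then 0 else
          evn cg (Nat.pair (u.unpair.1.unpair.1 + u.unpair.2.unpair.1 + 1)
            (Nat.pair u.unpair.1.unpair.2 (Nat.pair u.unpair.2.unpair.1
              (u.unpair.2.unpair.2 - 1))))) else 0)
    (b := fun w => tower (max Jf Jg) w + 1)
    (e_lt (E3.pair E3.right E3.zero) E3.left ef E3.zero)
    (e_lt (E3.pair (e_right E3.left) (e_succ (e_left E3.right)))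
      (e_succ (e_add (e_left E3.left) (e_left E3.right)))
      (e_ite (e_right E3.right) E3.zero
        (E3.comp (g := fun u => Nat.pair (u.unpair.1.unpair.1 + u.unpair.2.unpair.1 + 1)
            (Nat.pair u.unpair.1.unpair.2 (Nat.pair u.unpair.2.unpair.1
              (u.unpair.2.unpair.2 - 1)))) eg
          (E3.pair (e_succ (e_add (e_left E3.left) (e_left E3.right)))
            (E3.pair (e_right E3.left) (E3.pair (e_left E3.right)
              (e_pred (e_right E3.right))))))) E3.zero)
    (e_succ (e_tower _)) (fun z j => by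
      rw [h0]
      refine (hb _ _ _).trans (Nat.add_le_add_right (tower_mono _ ?_) 1)
      exact (Nat.add_le_add_right (Nat.unpair_left_le z) j).trans (Nat.add_le_pair z j))
  refine ⟨?_, max Jf Jg, fun k n => ?_⟩
  · have h2 := E3.comp (g := fun w => Nat.pair (Nat.pair
      (w.unpair.1 - w.unpair.2.unpair.2) w.unpair.2.unpair.1) w.unpair.2.unpair.2) h1
      (E3.pair (E3.pair (e_sub E3.left (e_right E3.right)) (e_left E3.right))
        (e_right E3.right))
    have h3 := e_lt E3.right E3.left h2 E3.zero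
    refine e_ofPair h3 fun k n => ?_
    rw [h0, Nat.unpair_pair, Nat.unpair_pair]
    show _ = if n < k then evn (Code.prec cf cg) (Nat.pair (k - n.unpair.2 + n.unpair.2)
      (Nat.pair n.unpair.1 n.unpair.2)) else 0
    rw [Nat.pair_unpair]
    have h4 := Nat.unpair_right_le n
    by_cases h5 : n < k
    · rw [if_pos h5, Nat.sub_add_cancel (by omega)]
    · rw [if_neg h5]
      cases k with
      | zero => exact evn_0 _ _
      | succ k =>
        rw [evn_pr, Code.evaln, val_guard, if_neg h5]
  · have h6 := hb k n.unpair.1 n.unpair.2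
    rwa [Nat.pair_unpair] at h6

theorem gd_rfind {cf : Code} (hf : Gd cf) : Gd (Code.rfind' cf) := by
  obtain ⟨ef, Jf, bf⟩ := hf
  have hb : ∀ k a m : ℕ, evn (Code.rfind' cf) (Nat.pair k (Nat.pair a m)) ≤ k + 1 := by
    intro k
    induction k with
    | zero =>
      intro a m
      rw [evn_0]
      exact Nat.zero_le _
    | succ k ih =>
      intro a m
      rw [evn_rfind]
      have h1 := Nat.right_le_pair a m
      have h2 := ih a (m + 1)
      split_ifs <;> omega
  have h0 : ∀ z j : ℕ, recF (fun _ => 0)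
      (fun u => if Nat.pair u.unpair.1.unpair.2 (u.unpair.1.unpair.1 - (u.unpair.2.unpair.1 + 1)) <
          u.unpair.2.unpair.1 + 1 then
        (if evn cf (Nat.pair (u.unpair.2.unpair.1 + 1) (Nat.pair u.unpair.1.unpair.2
            (u.unpair.1.unpair.1 - (u.unpair.2.unpair.1 + 1)))) = 0 then 0 else
          if evn cf (Nat.pair (u.unpair.2.unpair.1 + 1) (Nat.pair u.unpair.1.unpair.2
            (u.unpair.1.unpair.1 - (u.unpair.2.unpair.1 + 1)))) - 1 = 0 then
            (u.unpair.1.unpair.1 - (u.unpair.2.unpair.1 + 1)) + 1 else u.unpair.2.unpair.2)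
        else 0) (Nat.pair z j) ≤ z.unpair.1 + 1 ∧ (j ≤ z.unpair.1 → recF (fun _ => 0)
      (fun u => if Nat.pair u.unpair.1.unpair.2 (u.unpair.1.unpair.1 - (u.unpair.2.unpair.1 + 1)) <
          u.unpair.2.unpair.1 + 1 then
        (if evn cf (Nat.pair (u.unpair.2.unpair.1 + 1) (Nat.pair u.unpair.1.unpair.2
            (u.unpair.1.unpair.1 - (u.unpair.2.unpair.1 + 1)))) = 0 then 0 else
          if evn cf (Nat.pair (u.unpair.2.unpair.1 + 1) (Nat.pair u.unpair.1.unpair.2
            (u.unpair.1.unpair.1 - (u.unpair.2.unpair.1 + 1)))) - 1 = 0 then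
            (u.unpair.1.unpair.1 - (u.unpair.2.unpair.1 + 1)) + 1 else u.unpair.2.unpair.2)
        else 0) (Nat.pair z j) =
      evn (Code.rfind' cf) (Nat.pair j (Nat.pair z.unpair.2 (z.unpair.1 - j)))) := by
    intro z j
    induction j with
    | zero =>
      rw [recF_zero]
      exact ⟨Nat.zero_le _, fun _ => (evn_0 _ _).symm⟩
    | succ j ih =>
      obtain ⟨ih1, ih2⟩ := ih
      rw [recF_succ, Nat.unpair_pair, Nat.unpair_pair]
      refine ⟨?_, fun h => ?_⟩
      · split_ifs
        · exact Nat.zero_le _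
        · show _ - _ + 1 ≤ _
          exact Nat.add_le_add_right (Nat.sub_le _ _) 1
        · exact ih1
        · exact Nat.zero_le _
      · rw [ih2 (by omega), evn_rfind]
        have h5 : z.unpair.1 - (j + 1) + 1 = z.unpair.1 - j := by omega
        rw [h5]
  have h1 := e_rec (f := fun _ => 0)
      (g := fun u => if Nat.pair u.unpair.1.unpair.2 (u.unpair.1.unpair.1 - (u.unpair.2.unpair.1 + 1)) <
          u.unpair.2.unpair.1 + 1 then
        (if evn cf (Nat.pair (u.unpair.2.unpair.1 + 1) (Nat.pair u.unpair.1.unpair.2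
            (u.unpair.1.unpair.1 - (u.unpair.2.unpair.1 + 1)))) = 0 then 0 else
          if evn cf (Nat.pair (u.unpair.2.unpair.1 + 1) (Nat.pair u.unpair.1.unpair.2
            (u.unpair.1.unpair.1 - (u.unpair.2.unpair.1 + 1)))) - 1 = 0 then
            (u.unpair.1.unpair.1 - (u.unpair.2.unpair.1 + 1)) + 1 else u.unpair.2.unpair.2)
        else 0)
    (b := fun w => w + 1) E3.zero
    (by
      have h2 : E3 fun u => u.unpair.1.unpair.1 - (u.unpair.2.unpair.1 + 1) :=
        e_sub (e_left E3.left) (e_succ (e_left E3.right))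
      have h3 : E3 fun u => evn cf (Nat.pair (u.unpair.2.unpair.1 + 1)
          (Nat.pair u.unpair.1.unpair.2
            (u.unpair.1.unpair.1 - (u.unpair.2.unpair.1 + 1)))) :=
        E3.comp (g := fun u => Nat.pair (u.unpair.2.unpair.1 + 1)
          (Nat.pair u.unpair.1.unpair.2
            (u.unpair.1.unpair.1 - (u.unpair.2.unpair.1 + 1)))) ef
          (E3.pair (e_succ (e_left E3.right)) (E3.pair (e_right E3.left) h2))
      exact e_lt (E3.pair (e_right E3.left) h2) (e_succ (e_left E3.right))
        (e_ite h3 E3.zero (e_ite (e_pred h3) (e_succ h2) (e_right E3.right))) E3.zero)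
    (e_succ e_id) (fun z j => by
      refine (h0 z j).1.trans (Nat.add_le_add_right ?_ 1)
      exact (Nat.unpair_left_le z).trans (Nat.left_le_pair z j))
  refine ⟨?_, 0, fun k n => ?_⟩
  · have h2 := E3.comp (g := fun w => Nat.pair (Nat.pair
      (w.unpair.1 + w.unpair.2.unpair.2) w.unpair.2.unpair.1) w.unpair.1) h1
      (E3.pair (E3.pair (e_add E3.left (e_right E3.right)) (e_left E3.right)) E3.left)
    refine e_ofPair h2 fun k n => ?_
    rw [(h0 _ _).2 (by
      rw [Nat.unpair_pair, Nat.unpair_pair]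
      exact Nat.le_add_right _ _), Nat.unpair_pair, Nat.unpair_pair]
    show _ = evn (Code.rfind' cf) (Nat.pair k (Nat.pair n.unpair.1 (k + n.unpair.2 - k)))
    rw [Nat.add_sub_cancel_left, Nat.pair_unpair]
  · have h6 := hb k n.unpair.1 n.unpair.2
    rwa [Nat.pair_unpair] at h6

theorem t_EVALN : S_EVALN := by
  intro c
  suffices h : Gd c from h.1
  induction c with
  | zero => exact gd_zero
  | succ => exact gd_succ
  | left => exact gd_left
  | right => exact gd_right
  | pair cf cg hf hg => exact gd_pair hf hg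
  | comp cf cg hf hg => exact gd_comp hf hg
  | prec cf cg hf hg => exact gd_prec hf hg
  | rfind' cf hf => exact gd_rfind hf

end Pool.Agent.Y154.EL
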